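import Mathlib
import Pool.Agent.helper83.FI4B.Spec
import Pool.Agent.helper40.FIB.QLB

/-!
# Row BRI of project fi4b (MP_baa4d7_al): rationality of the idempotent `i`
-/

set_option autoImplicit false

namespace Pool.Agent.FI4B

open Pool.Agent.helper58.DC Pool.Agent.DI Pool.Agent.GR Pool.Agent.OB Pool.Agent.DR Pool.Agent.FI Pool.Agent.FI3 Pool.Agent.FI4

theorem BRI_sum {G : Type} [Finite G] (σ : ℂ ≃+* ℂ) (f : G → ℂ) : σ (∑ᶠ x, f x) = ∑ᶠ x, σ (f x) := by
  classical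
  have := Fintype.ofFinite G
  rw [finsum_eq_sum_of_fintype, finsum_eq_sum_of_fintype, map_sum]

theorem BRI (hBIR : BIR_stmt) (hRR1 : RR1_stmt) (hGLI : GLI_stmt) (hGLP : GLP_stmt) (hQEU : QEU_stmt)
    (hQCG : QCG_stmt) : BRI_stmt := by
  classical
  intro p M hS G _ _ D x θ χ h P hP i hi s hs hs1 ψ hψ u hu
  obtain ⟨σ, hσ1, hσ2⟩ := hBIR p M hS (Nat.card G) s Nat.card_pos hs hs1 (Set.range i) (Set.finite_range i)
    (by rintro t ⟨y, rfl⟩; exact hi.idm.int y)
  have hgal : ∀ g, σ (ψ g) = ψ (g ^ s) := hGLP G σ s hs hσ1 (cz P) ψ hψ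
  have hφ : (fun g => ψ (g ^ s)) ∈ IrrOn (cz P) := by
    have h1 := hGLI G (cz P) σ ψ hψ
    have h2 : galMap σ ψ = fun g => ψ (g ^ s) := funext hgal
    rwa [h2] at h1
  -- (1)
  have e1 : σ (ev ψ i u) = ev ψ i (u ^ s) := by
    obtain ⟨m, l, hml⟩ := QLA_form hQEU hQCG hS h hP hi hψ
    obtain ⟨n, -, hn⟩ := QLA_th h
    have hfin : Finite (Bl M (cz D) θ) := ((IrrOn_fin (cz D)).subset fun _ (hb : _ ∈ Bl M (cz D) θ) => hb.1)
    have h1 := hml ⟨u, hu⟩
    have h2 := hml (⟨u, hu⟩ ^ s)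
    have h3 : (((⟨u, hu⟩ : D) ^ s : D) : G) = u ^ s := rfl
    rw [h3] at h2
    change ev ψ i u = _ at h1
    rw [h1, h2, map_mul, BRI_sum, hn, map_natCast]
    congr 1
    refine finsum_congr fun b => ?_
    rw [map_mul, map_intCast, lv_pow]
    congr 1
    refine hσ1 _ ?_
    have hdvd : Nat.card D ∣ Nat.card G := Subgroup.card_subgroup_dvd_card D
    obtain ⟨c, hc⟩ := hdvd
    rw [hc, pow_mul, lv_pow_card, one_pow]
  -- (2)
  have e2 : σ (ev ψ i u) = ev (fun g => ψ (g ^ s)) (fun x => σ (i x)) u := by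
    unfold ev
    rw [BRI_sum]
    refine finsum_congr fun y => ?_
    rw [map_mul, hgal]
  -- (3)
  have hidm : Idm M (cz P) (fun x => σ (i x)) := by
    refine ⟨fun y hy => ?_, fun y => (hσ2 (i y) ⟨y, rfl⟩).1, ?_⟩
    · change σ (i y) = 0
      rw [hi.idm.sup y hy, map_zero]
    · funext g
      have h1 := congrFun hi.idm.idem g
      have h2 := congrArg σ h1
      rw [← h2]
      unfold cv
      rw [BRI_sum]
      refine finsum_congr fun y => ?_
      rw [map_mul]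
  have hDC : D ≤ cz D := le_cz_of_com h.com
  have huP : u ∈ cz P := cz_mono hP (hDC hu)
  have hinv : ∀ y, i (u * y * u⁻¹) = i y := fun y => hi.inv u ⟨cz_le_TT (hDC hu), huP⟩ y
  have hpel : PEl p u := by
    obtain ⟨k, hk⟩ := h.dfa.pgrp ⟨u, hu⟩
    exact ⟨k, by simpa using congrArg Subtype.val hk⟩
  have e3 := hRR1 p M hS G (cz P) u huP 1 (cz P).one_mem hpel
    (by unfold PReg; rw [orderOf_one, Nat.dvd_one]; exact hS.pr.one_lt.ne') (Commute.one_right u) i
    (fun x => σ (i x)) hi.idm hidm (by simpa using hinv)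
    (by intro y; simp only [mul_one]; rw [hinv y])
    (by
      intro y _
      have h1 := (hσ2 (i y) ⟨y, rfl⟩).2.neg
      have h2 : -(σ (i y) - i y) = i y - σ (i y) := by ring
      rwa [h2] at h1) _ hφ
  rw [mul_one] at e3
  rw [← e1, e2, e3]

end Pool.Agent.FI4B
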